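import Mathlib
import Pool.Agent.R104.Quiddity

set_option autoImplicit false

/-!
# MP_762e7e_co: for every `N ≥ 2` the equation `(E_N)` has only finitely many irreducible solutions

The definitions (`T`, `M`, `IsSolution`, `osum`, `Equivalent`, `Reducible`, `IsIrreducible`) are in
`Pool.Agent.R104.Quiddity`.

Proof: two of the first rows of `M (c_1, ..., c_k)`, `0 ≤ k ≤ N ^ 2`, agree. This gives a block of `c`
with continuant `1`, and `c` splits there.
-/

namespace Pool.Agent.Results.MP_762e7e_co.FinitelyMany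

open Pool.Agent.R104.Quiddity Matrix

theorem length_le {N : ℕ} (hN : 2 ≤ N) {c : List (ZMod N)} (hc : IsIrreducible c) :
    c.length ≤ N ^ 2 + 2 := by
  by_contra hlen
  push Not at hlen
  obtain ⟨hsol, h3, hred⟩ := hc
  apply hred
  have : NeZero N := ⟨by omega⟩
  -- the first rows of the products
  let ρ : Fin (N ^ 2 + 1) → (Fin 2 → ZMod N) := fun k => M (c.take k.val) 0
  have hninj : ¬ Function.Injective ρ := by
    intro hinj
    have := Fintype.card_le_of_injective ρ hinj
    rw [Fintype.card_fin, Fintype.card_pi_const, ZMod.card] at this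
    omega
  obtain ⟨a, b, hlt, hab⟩ : ∃ a b : Fin (N ^ 2 + 1), a < b ∧ ρ a = ρ b := by
    rw [Function.Injective] at hninj
    push Not at hninj
    obtain ⟨a, b, hab, hne⟩ := hninj
    rcases lt_or_gt_of_ne hne with h | h
    · exact ⟨a, b, h, hab⟩
    · exact ⟨b, a, h, hab.symm⟩
  obtain ⟨a, ha⟩ := a
  obtain ⟨b, hb⟩ := b
  simp only [Fin.mk_lt_mk] at hlt
  have hab' : M (c.take a) 0 = M (c.take b) 0 := hab
  -- the decomposition of `c`
  have hstep : ∀ k, k < c.length → ∃ x, M (c.take (k + 1)) = T x * M (c.take k) := by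
    intro k hk
    refine ⟨c.get ⟨k, hk⟩, ?_⟩
    rw [List.take_succ_eq_append_getElem hk, M_append, M_singleton]
    rfl
  obtain ⟨x, hx⟩ := hstep a (by omega)
  obtain ⟨y, hy⟩ := hstep b (by omega)
  set u := (c.drop (a + 1)).take (b - a) with hu
  have hul : u.length = b - a := by
    rw [hu, List.length_take, List.length_drop]; omega
  have htake : c.take (b + 1) = c.take (a + 1) ++ u := by
    rw [hu, show b + 1 = (a + 1) + (b - a) by omega, List.take_add]
  have hdec : c = c.take (a + 1) ++ (u ++ c.drop (b + 1)) := by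
    rw [← List.append_assoc, ← htake, List.take_append_drop]
  have hne : u ≠ [] := by
    rw [ne_eq, ← List.length_eq_zero_iff]; omega
  have hMu : M (c.take (b + 1)) = M u * M (c.take (a + 1)) := by rw [htake, M_append]
  -- the corner entry of `M u` is `1`
  have hd1 := det_M (c.take (a + 1))
  have hd2 := det_M (c.take (b + 1))
  rw [Matrix.det_fin_two] at hd1 hd2
  have r1 : ∀ j, M (c.take (a + 1)) 1 j = M (c.take a) 0 j := by
    intro j
    rw [hx, Matrix.mul_apply, Fin.sum_univ_two]
    simp [T]
  have r2 : ∀ j, M (c.take (b + 1)) 1 j = M (c.take b) 0 j := by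
    intro j
    rw [hy, Matrix.mul_apply, Fin.sum_univ_two]
    simp [T]
  have e0 : M (c.take (b + 1)) 0 0 = M u 0 0 * M (c.take (a + 1)) 0 0 +
      M u 0 1 * M (c.take (a + 1)) 1 0 := by
    rw [hMu, Matrix.mul_apply, Fin.sum_univ_two]
  have e1 : M (c.take (b + 1)) 0 1 = M u 0 0 * M (c.take (a + 1)) 0 1 +
      M u 0 1 * M (c.take (a + 1)) 1 1 := by
    rw [hMu, Matrix.mul_apply, Fin.sum_univ_two]
  have g0 : M (c.take (b + 1)) 1 0 = M (c.take (a + 1)) 1 0 := by
    rw [r1, r2]; exact (congrFun hab' 0).symm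
  have g1 : M (c.take (b + 1)) 1 1 = M (c.take (a + 1)) 1 1 := by
    rw [r1, r2]; exact (congrFun hab' 1).symm
  have hcorner : M u 0 0 = 1 := by
    rw [g0, g1, e0, e1] at hd2
    linear_combination hd2 - (M u 0 0) * hd1
  have hr := reducible_of_block (l₁ := c.take (a + 1)) (u := u) (l₂ := c.drop (b + 1)) hne
    (by
      rw [List.length_take, List.length_drop]
      omega)
    (by rw [← hdec]; exact hsol) (Or.inl hcorner)
  rwa [← hdec] at hr

/-- **Q1 is true.** For every `N ≥ 2` the equation `(E_N)` has only finitely many irreducible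
solutions; indeed every irreducible solution has size at most `N ^ 2 + 2`. -/
theorem result : ∀ N : ℕ, 2 ≤ N →
    {c : List (ZMod N) | IsIrreducible c}.Finite ∧
    ∀ c : List (ZMod N), IsIrreducible c → c.length ≤ N ^ 2 + 2 := by
  intro N hN
  have : NeZero N := ⟨by omega⟩
  refine ⟨?_, fun c hc => length_le hN hc⟩
  refine (List.finite_length_le (ZMod N) (N ^ 2 + 2)).subset ?_
  intro c hc
  exact length_le hN hc

end Pool.Agent.Results.MP_762e7e_co.FinitelyMany
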